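import Pool.Agent.H71.DG.Dam
import Pool.Agent.H48.PI.MaxN
import Pool.Agent.H48.PI.WinT

/-!
# Dilute planar gas, `0 < γ < 1` (MP_c15324_an): all polynomial moments (section 5 of /team-store/h15_dilute_paper.md)

`h` is the normalised density (`h = f/μ`, mass `≤ 1`), a classical solution with the collision term `μ Q(h,h)`. Known: `h (1+|v|²)^p ≤ L` on `[0,T)`. For `p₁ ≥ p` the barrier is `h (1+|v|²)^(p₁) exp(-μ EDl)`, `EDl` with a small
`lam` depending on `p₁`. At a touching point: `V_e PhS ≤ 2 ⟨w⟩³ ⟨v⟩^(a-1)`, so the partners which are not damped cost `K₁ L ⟨v⟩^(a-1)`, less than the damping `lam cV ⟨v⟩^a / 2` for `⟨v⟩ ≥ ρ`; for `⟨v⟩ < ρ`: `h (1+|v|²)^(p₁) ≤ L ρ^(2(p₁-p))`.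
-/

set_option autoImplicit false

open MeasureTheory Set Filter Topology Pool.Agent.H25.Kin Pool.Agent.H82.BK Pool.Agent.H82.CM
open Pool.Agent.H48.PL Pool.Agent.H48.PI Pool.Agent.H48.PW Pool.Agent.H48.PV

namespace Pool.Agent.H71.DG

variable {d : ℕ} {a β : ℝ} {b : ℝ → ℝ} {e : Fin d}

/-- the conclusion of block O (`op_g`) with the weight `(1+|v|²)^p` -/
def OpD (d : ℕ) (a β : ℝ) (b : ℝ → ℝ) (p : ℕ) (e : Fin d) : Prop :=
  ∃ K₀ κ δ₁ : ℝ, 0 ≤ K₀ ∧ 0 < κ ∧ 0 < δ₁ ∧ δ₁ ≤ 1 ∧ ∀ C₀ R : ℝ, 0 < C₀ → 1 ≤ R →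
    ∃ N₁ : ℝ, 0 < N₁ ∧ ∀ g g₁ : Vec d → ℝ, Nice g → (∀ u, 0 ≤ g u) → Measurable g₁ → (∀ u, 0 ≤ g₁ u) →
      (∀ u, g₁ u ≤ g u) → (∀ u, g₁ u ≤ C₀) → (∀ u, R < jb u → g₁ u = 0) →
      ∀ v : Vec d, TouchS δ₁ β p g v → N₁ ≤ g v * (1 + nsq v) ^ p →
      boltzQ (1 + a) b g v ≤ g v * (K₀ * (∫ w, (v e - w e) * PhS e a v w * (g w - g₁ w)) -
        κ * ∫ w, len (v - w) ^ (1 + a) * g₁ w)

/-- the collision term against the cut-off functions, for the densities with `g (1+|v|²)^p ≤ L` -/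
def SrcD (d : ℕ) (a R C Γ L : ℝ) (b : ℝ → ℝ) (p : ℕ) (e : Fin d) : Prop :=
  ∀ g : Vec d → ℝ, Nice g → (∀ u, 0 ≤ g u) → (∀ u, g u * (1 + nsq u) ^ p ≤ L) → ∀ v : Vec d,
    -Γ ≤ ∫ w, W0 R v w * (bet' C (g w) * boltzQ (1 + a) b g w) ∧
    |∫ w, W1 e R v w * (bet' C (g w) * boltzQ (1 + a) b g w)| ≤
      2 * R * (∫ w, W0 R v w * (bet' C (g w) * boltzQ (1 + a) b g w)) + Γ

private lemma an_V (ha : a ≤ 0) (ha1 : -1 < a) (e : Fin d) (v w : Vec d) :
    0 ≤ (v e - w e) * PhS e a v w ∧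
      (v e - w e) * PhS e a v w ≤ 2 * jb v ^ (a - 1) * jb w ^ 3 := by
  have hjv := jb_pos v
  have hjw := jb_pos w
  have hjv1 := one_le_jb v
  have hjw1 := one_le_jb w
  have hl := len_nonneg (v - w)
  have hm0 : 0 ≤ min 1 (jb w / jb v) := le_min zero_le_one (div_nonneg hjw.le hjv.le)
  have e1 : (v e - w e) * PhS e a v w =
      min 1 (jb w / jb v) ^ 4 * ((v e - w e) ^ 2 * len (v - w) ^ (a - 1)) := by
    unfold PhS phi
    rw [Pi.sub_apply]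
    ring
  have hr0 : 0 ≤ len (v - w) ^ (a - 1) := Real.rpow_nonneg hl _
  have h2 : (v e - w e) ^ 2 * len (v - w) ^ (a - 1) ≤ len (v - w) ^ (1 + a) := by
    rcases hl.eq_or_lt with h0 | h0
    · have h3 : v - w = 0 := by
        by_contra hne
        exact (len_pos hne).ne h0
      have h4 : v e - w e = 0 := by
        have := congrFun h3 e
        simpa using this
      rw [h4, ← h0]
      have := Real.rpow_nonneg (le_refl (0 : ℝ)) (1 + a)
      simpa using this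
    · have h3 : (v e - w e) ^ 2 ≤ len (v - w) ^ 2 := by
        have h4 : |v e - w e| ≤ len (v - w) := by
          have := abs_coord_le (v - w) e
          rwa [Pi.sub_apply] at this
        have h5 := pow_le_pow_left₀ (abs_nonneg _) h4 2
        rwa [sq_abs] at h5
      calc (v e - w e) ^ 2 * len (v - w) ^ (a - 1) ≤ len (v - w) ^ 2 * len (v - w) ^ (a - 1) :=
            mul_le_mul_of_nonneg_right h3 hr0
        _ = len (v - w) ^ (1 + a) := by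
            rw [← Real.rpow_two, ← Real.rpow_add h0]
            congr 1
            ring
  have h3 : len (v - w) ^ (1 + a) ≤ 2 * (jb v ^ (1 + a) * jb w) := by
    have k1 : len (v - w) ≤ 2 * (jb v * jb w) := by
      have k2 := len_sub_le v w
      have k3 := len_le_jb v
      have k4 := len_le_jb w
      nlinarith
    have k2 : len (v - w) ^ (1 + a) ≤ (2 * (jb v * jb w)) ^ (1 + a) :=
      Real.rpow_le_rpow hl k1 (by linarith)
    rw [Real.mul_rpow (by norm_num) (by positivity), Real.mul_rpow hjv.le hjw.le] at k2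
    have k3 : (2 : ℝ) ^ (1 + a) ≤ 2 := by
      calc (2 : ℝ) ^ (1 + a) ≤ 2 ^ (1 : ℝ) :=
            Real.rpow_le_rpow_of_exponent_le (by norm_num) (by linarith)
        _ = 2 := Real.rpow_one 2
    have k4 : jb w ^ (1 + a) ≤ jb w := by
      calc jb w ^ (1 + a) ≤ jb w ^ (1 : ℝ) := Real.rpow_le_rpow_of_exponent_le hjw1 (by linarith)
        _ = jb w := Real.rpow_one _
    have k5 : 0 ≤ jb v ^ (1 + a) := Real.rpow_nonneg hjv.le _
    have k6 : 0 ≤ jb w ^ (1 + a) := Real.rpow_nonneg hjw.le _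
    calc len (v - w) ^ (1 + a) ≤ 2 ^ (1 + a) * (jb v ^ (1 + a) * jb w ^ (1 + a)) := k2
      _ ≤ 2 * (jb v ^ (1 + a) * jb w) :=
        mul_le_mul k3 (mul_le_mul_of_nonneg_left k4 k5) (mul_nonneg k5 k6) (by norm_num)
  have h4 : min 1 (jb w / jb v) ^ 4 ≤ (jb w / jb v) ^ 2 := by
    have k1 : min 1 (jb w / jb v) ≤ 1 := min_le_left _ _
    have k2 : min 1 (jb w / jb v) ≤ jb w / jb v := min_le_right _ _
    calc min 1 (jb w / jb v) ^ 4 ≤ min 1 (jb w / jb v) ^ 2 := pow_le_pow_of_le_one hm0 k1 (by norm_num)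
      _ ≤ (jb w / jb v) ^ 2 := pow_le_pow_left₀ hm0 k2 2
  have h5 : 0 ≤ (v e - w e) ^ 2 * len (v - w) ^ (a - 1) := mul_nonneg (sq_nonneg _) hr0
  rw [e1]
  refine ⟨mul_nonneg (pow_nonneg hm0 _) h5, ?_⟩
  have e2 : jb v ^ (a - 1) = jb v ^ (1 + a) / jb v ^ 2 := by
    rw [← Real.rpow_two, ← Real.rpow_sub hjv]
    congr 1
    ring
  calc min 1 (jb w / jb v) ^ 4 * ((v e - w e) ^ 2 * len (v - w) ^ (a - 1))
      ≤ (jb w / jb v) ^ 2 * (2 * (jb v ^ (1 + a) * jb w)) :=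
        mul_le_mul h4 (h2.trans h3) h5 (by positivity)
    _ = 2 * jb v ^ (a - 1) * jb w ^ 3 := by
        rw [e2]
        field_simp

/-- `∫ ⟨w⟩³ g ≤ K L` if `g (1+|w|²)^p ≤ L` -/
private lemma an_mom {p : ℕ} (ha1 : -1 < a) (hp : (d : ℝ) + (1 + a) + 4 ≤ 2 * p) :
    ∃ K : ℝ, 0 ≤ K ∧ ∀ L : ℝ, 0 ≤ L → ∀ g : Vec d → ℝ, (∀ u, 0 ≤ g u) →
      (∀ u, g u * (1 + nsq u) ^ p ≤ L) → ∀ w, jb w ^ 3 * g w ≤ K * L * wt d w := by
  refine ⟨((d : ℝ) + 1) ^ 3 * 2 ^ p, by positivity, fun L hL g hg0 hg w => ?_⟩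
  have hw := w_pos w
  have h1 := hg w
  have h2 : ‖w‖ ^ 2 ≤ nsq w := norm_sq_le_sq w
  have h3 : (1 + ‖w‖) ^ 2 ≤ 2 * (1 + nsq w) := by nlinarith [sq_nonneg (1 - ‖w‖)]
  have h4 : ((1 + ‖w‖) ^ 2) ^ p ≤ (2 * (1 + nsq w)) ^ p := pow_le_pow_left₀ (by positivity) h3 p
  rw [mul_pow, ← pow_mul] at h4
  have h5 : jb w ^ 3 ≤ (((d : ℝ) + 1) * (1 + ‖w‖)) ^ 3 := pow_le_pow_left₀ (jb_pos w).le (jb_le_w w) 3
  have h6 : d + 1 + 3 ≤ 2 * p := by
    have k1 : ((d : ℝ) + 4) < 2 * p := by linarith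
    have k2 : ((d + 4 : ℕ) : ℝ) < ((2 * p : ℕ) : ℝ) := by push_cast; linarith
    have k3 : d + 4 < 2 * p := by exact_mod_cast k2
    omega
  have h7 : (1 + ‖w‖) ^ (d + 1 + 3) ≤ (1 + ‖w‖) ^ (2 * p) := pow_le_pow_right₀ (one_le_w w) h6
  unfold wt
  rw [← div_eq_mul_inv, le_div_iff₀ (pow_pos hw _)]
  have g0 := hg0 w
  calc jb w ^ 3 * g w * (1 + ‖w‖) ^ (d + 1)
      ≤ (((d : ℝ) + 1) * (1 + ‖w‖)) ^ 3 * g w * (1 + ‖w‖) ^ (d + 1) := by gcongr
    _ = ((d : ℝ) + 1) ^ 3 * (g w * (1 + ‖w‖) ^ (d + 1 + 3)) := by ring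
    _ ≤ ((d : ℝ) + 1) ^ 3 * (g w * (2 ^ p * (1 + nsq w) ^ p)) := by
        have h8 := h7.trans h4
        gcongr
    _ = ((d : ℝ) + 1) ^ 3 * 2 ^ p * (g w * (1 + nsq w) ^ p) := by ring
    _ ≤ ((d : ℝ) + 1) ^ 3 * 2 ^ p * L := by gcongr

private lemma an_mm01 (hβ : 0 < β) (v u : Vec d) : 0 ≤ mm β v u ∧ mm β v u ≤ 1 := by
  have hn : 0 ≤ nsq (u - v) := by
    unfold nsq
    exact Finset.sum_nonneg fun i _ => sq_nonneg _
  have hv : 0 ≤ nsq v := by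
    unfold nsq
    exact Finset.sum_nonneg fun i _ => sq_nonneg _
  have hr : 0 ≤ min 1 (nsq (u - v) / (1 + nsq v)) := le_min zero_le_one (by positivity)
  unfold mm
  exact ⟨Real.rpow_nonneg hr _, Real.rpow_le_one hr (min_le_left _ _) (by linarith)⟩

private lemma an_mm_meas (β : ℝ) (v : Vec d) : Measurable fun u : Vec d => mm β v u := by
  unfold mm
  have h1 : Measurable fun u : Vec d => nsq (u - v) / (1 + nsq v) := by
    unfold nsq
    fun_prop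
  exact (measurable_const.min h1).pow_const _

private lemma an_touch {δ : ℝ} (hδ : 0 < δ) (hβ : 0 < β) {p : ℕ} {g : Vec d → ℝ} {v : Vec d}
    (h : Touch δ β p g v) : TouchS δ β p g v := by
  refine ⟨fun u => δ * mm β v u, (an_mm_meas β v).const_mul δ, fun u => h u, fun u => ?_,
    fun w _ k _ => ?_⟩
  · have h1 := an_mm01 hβ v u
    rw [abs_of_nonneg (mul_nonneg hδ.le h1.1)]
    nlinarith [h1.2]
  · have e1 : ∀ σ : Vec d, k (co w σ) * (δ * mm β v (v + hh σ w)) =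
        δ * (k (co w σ) * mm β v (v + hh σ w)) := fun σ => by ring
    simp_rw [e1]
    rw [integral_const_mul]

/-- the partners which are not damped -/
private lemma an_flux {p : ℕ} (ha : a ≤ 0) (ha1 : -1 < a) (hp : (d : ℝ) + (1 + a) + 4 ≤ 2 * p) :
    ∃ K : ℝ, 0 ≤ K ∧ ∀ L : ℝ, 0 ≤ L → ∀ g g₁ : Vec d → ℝ, (∀ u, 0 ≤ g u) → (∀ u, 0 ≤ g₁ u) →
      (∀ u, g₁ u ≤ g u) → (∀ u, g u * (1 + nsq u) ^ p ≤ L) → ∀ (e : Fin d) (v : Vec d),
      ∫ w, (v e - w e) * PhS e a v w * (g w - g₁ w) ≤ K * L * jb v ^ (a - 1) := by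
  obtain ⟨K, hK, h⟩ := an_mom (d := d) ha1 hp
  have hI : 0 ≤ ∫ w, wt d w := integral_nonneg fun w => wt_nonneg w
  refine ⟨2 * K * ∫ w, wt d w, by positivity, fun L hL g g₁ hg0 hg10 hg1 hg e v => ?_⟩
  have h1 := h L hL g hg0 hg
  have hj : 0 ≤ jb v ^ (a - 1) := Real.rpow_nonneg (jb_pos v).le _
  have h2 : ∫ w, (v e - w e) * PhS e a v w * (g w - g₁ w) ≤
      ∫ w, 2 * jb v ^ (a - 1) * (K * L * wt d w) := by
    refine integral_mono_of_nonneg (Eventually.of_forall fun w => ?_)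
      ((integrable_wt.const_mul _).const_mul _) (Eventually.of_forall fun w => ?_)
    · exact mul_nonneg (an_V ha ha1 e v w).1 (sub_nonneg.2 (hg1 w))
    · show (v e - w e) * PhS e a v w * (g w - g₁ w) ≤ 2 * jb v ^ (a - 1) * (K * L * wt d w)
      obtain ⟨k1, k2⟩ := an_V ha ha1 e v w
      have k3 : g w - g₁ w ≤ g w := by linarith [hg10 w]
      have k4 : 0 ≤ g w - g₁ w := sub_nonneg.2 (hg1 w)
      calc (v e - w e) * PhS e a v w * (g w - g₁ w)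
          ≤ (2 * jb v ^ (a - 1) * jb w ^ 3) * g w :=
            mul_le_mul k2 k3 k4 (k1.trans k2)
        _ = 2 * jb v ^ (a - 1) * (jb w ^ 3 * g w) := by ring
        _ ≤ _ := mul_le_mul_of_nonneg_left (h1 w) (by positivity)
  refine h2.trans (le_of_eq ?_)
  rw [integral_const_mul, integral_const_mul]
  ring

/-- the touching inequality for the barrier `μ EDl` -/
private lemma an_core {p p₁ : ℕ} (hp : (d : ℝ) + (1 + a) + 4 ≤ 2 * p) (hpp : p ≤ p₁) (ha : a ≤ 0) (ha1 : -1 < a)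
    (hβ : 0 < β) (hβ1 : β ≤ 1) (hop : OpD d a β b p₁ e) {R C cV Γ L : ℝ} (hR : 1 ≤ R) (hC : 0 < C)
    (hcV : 0 < cV) (hΓ : 0 ≤ Γ) (hL : 0 ≤ L) :
    ∃ lam A₁ : ℝ, 0 ≤ lam ∧ 0 < A₁ ∧ 14 * R ^ 2 * lam ≤ 1 / 2 ∧ ∀ μ : ℝ, 0 < μ → μ ≤ 1 → 24 * R * Γ * μ ≤ cV →
      SrcD d a R C Γ L b p e → ∀ F : Vec d → Vec d → ℝ,
      FS e F (fun x v => μ * boltzQ (1 + a) b (F x) v) →
      FS e (fun x v => bet C (F x v)) (fun x v => bet' C (F x v) * (μ * boltzQ (1 + a) b (F x) v)) →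
      ∫ q, F q.2 q.1 ∂(nu d) ≤ 1 → cV ≤ VarU R C e F → (∀ x v, F x v * (1 + nsq v) ^ p ≤ L) →
      (∀ x, Nice (F x)) → ∀ x v,
      A₁ ≤ F x v * (1 + nsq v) ^ p₁ * Real.exp (-(μ * EDl a lam 1 R C e F x v)) →
      (∀ u, F x u * (1 + nsq u) ^ p₁ * Real.exp (-(μ * EDl a lam 1 R C e F x u)) ≤
        F x v * (1 + nsq v) ^ p₁ * Real.exp (-(μ * EDl a lam 1 R C e F x v))) →
      μ * boltzQ (1 + a) b (F x) v ≤ F x v *
        (μ * dEDl a lam 1 R C e F (fun x v => μ * boltzQ (1 + a) b (F x) v) x v) := by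
  obtain ⟨K₀, κ, δ₁, hK₀, hκ, hδ₁, hδ₁1, hop'⟩ := hop
  obtain ⟨N₁, hN₁, hop1⟩ := hop' C (2 * R) hC (by linarith)
  obtain ⟨K, hK, hfl⟩ := an_flux (d := d) ha ha1 hp
  obtain ⟨lam, hlamd⟩ : ∃ lam : ℝ, lam = min (κ / (12 * R ^ 2)) (δ₁ / (112 * R ^ 2)) := ⟨_, rfl⟩
  have hlam : 0 < lam := by
    rw [hlamd]
    exact lt_min (by positivity) (by positivity)
  have l1 : 12 * R ^ 2 * 1 * lam ≤ κ := by
    have h1 : lam ≤ κ / (12 * R ^ 2) := by rw [hlamd]; exact min_le_left _ _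
    rw [le_div_iff₀ (by positivity)] at h1
    linarith
  have l2 : 112 * R ^ 2 * lam ≤ δ₁ := by
    have h1 : lam ≤ δ₁ / (112 * R ^ 2) := by rw [hlamd]; exact min_le_right _ _
    rw [le_div_iff₀ (by positivity)] at h1
    linarith
  -- the radius
  obtain ⟨ρ, hρd⟩ : ∃ ρ : ℝ, ρ = 2 * (K₀ * (K * L)) / (lam * cV) + 1 := ⟨_, rfl⟩
  have hlc : 0 < lam * cV := mul_pos hlam hcV
  have hρ1 : 1 ≤ ρ := by
    rw [hρd]
    have : 0 ≤ 2 * (K₀ * (K * L)) / (lam * cV) := by positivity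
    linarith
  refine ⟨lam, 3 * (N₁ + L * (ρ ^ 2) ^ (p₁ - p)), hlam.le, by positivity, by nlinarith, ?_⟩
  intro μ hμ hμ1 hμΓ hsrc F hF hb hM hvar hFL hN x v hhigh htch
  have hF0 : ∀ u, 0 ≤ F x u := fun u => hF.nonneg x u
  have hE : ∀ x v, |μ * EDl a lam 1 R C e F x v| ≤ 1 / 2 := by
    intro x v
    have h1 := EDl_abs (a := a) ha hR hC hlam.le hF hM x v
    rw [abs_mul, abs_of_pos hμ]
    have h2 : 14 * R ^ 2 * 1 ^ 2 * lam ≤ 1 / 2 := by nlinarith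
    calc μ * |EDl a lam 1 R C e F x v| ≤ 1 * (1 / 2) :=
          mul_le_mul hμ1 (h1.trans h2) (abs_nonneg _) zero_le_one
      _ = 1 / 2 := one_mul _
  have hHi : N₁ + L * (ρ ^ 2) ^ (p₁ - p) ≤ F x v * (1 + nsq v) ^ p₁ :=
    high_E (by positivity) (hE x v) hhigh
  have hLρ : 0 ≤ L * (ρ ^ 2) ^ (p₁ - p) := by positivity
  -- the point is at infinity
  have hfar : ρ ≤ jb v := by
    by_contra hcon
    have h1 : jb v ^ 2 ≤ ρ ^ 2 := pow_le_pow_left₀ (jb_pos v).le (not_le.1 hcon).le 2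
    have h2 : 1 + nsq v = jb v ^ 2 := (jb_sq v).symm
    have h3 : F x v * (1 + nsq v) ^ p₁ ≤ L * (ρ ^ 2) ^ (p₁ - p) := by
      have h4 : (1 + nsq v) ^ p₁ = (1 + nsq v) ^ p * (1 + nsq v) ^ (p₁ - p) := by
        rw [← pow_add, Nat.add_sub_cancel' hpp]
      have h5 : (1 + nsq v) ^ (p₁ - p) ≤ (ρ ^ 2) ^ (p₁ - p) := by
        rw [h2]
        exact pow_le_pow_left₀ (sq_nonneg _) h1 _
      have h6 := hFL x v
      have h7 : 0 ≤ (1 + nsq v) ^ (p₁ - p) := by rw [h2]; positivity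
      calc F x v * (1 + nsq v) ^ p₁ = F x v * (1 + nsq v) ^ p * (1 + nsq v) ^ (p₁ - p) := by
            rw [h4]; ring
        _ ≤ L * (ρ ^ 2) ^ (p₁ - p) := mul_le_mul h6 h5 h7 hL
    linarith
  -- the touching condition
  have hT : Touch (4 * (δ₁ / 4)) β p₁ (F x) v := by
    refine touch_E (E := fun u => μ * EDl a lam 1 R C e F x u) hβ (by positivity) (by linarith) hF0
      (fun u => ?_) htch
    have h1 := EDl_osc (a := a) ha ha1.le hβ hβ1 hR hC hlam.le hF hM x u v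
    have h2 := (an_mm01 hβ v u).1
    have h3 : mm β v u = min 1 (len (u - v) / jb v) ^ β := mm_eq_min β v u
    rw [← h3]
    have h4 : μ * EDl a lam 1 R C e F x u - μ * EDl a lam 1 R C e F x v =
        μ * (EDl a lam 1 R C e F x u - EDl a lam 1 R C e F x v) := by ring
    show |μ * EDl a lam 1 R C e F x u - μ * EDl a lam 1 R C e F x v| ≤ 2 * (δ₁ / 4) * mm β v u
    rw [h4, abs_mul, abs_of_pos hμ]
    calc μ * |EDl a lam 1 R C e F x u - EDl a lam 1 R C e F x v|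
        ≤ 1 * |EDl a lam 1 R C e F x u - EDl a lam 1 R C e F x v| :=
          mul_le_mul_of_nonneg_right hμ1 (abs_nonneg _)
      _ ≤ 56 * R ^ 2 * 1 ^ 2 * lam * mm β v u := by rw [one_mul]; exact h1
      _ ≤ 2 * (δ₁ / 4) * mm β v u := mul_le_mul_of_nonneg_right (by linarith) h2
  have e4 : 4 * (δ₁ / 4) = δ₁ := by ring
  rw [e4] at hT
  have hTS := an_touch hδ₁ hβ hT
  -- the bounded part
  obtain ⟨g₁, hg₁d⟩ : ∃ g₁ : Vec d → ℝ, g₁ = fun u : Vec d => chi R u * bet C (F x u) := ⟨_, rfl⟩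
  have hb0 : ∀ u, 0 ≤ bet C (F x u) := fun u => bet_nonneg hC (hF0 u)
  have hmb : Measurable g₁ := by
    have m1 : Measurable (bet C) := by
      unfold bet
      exact (measurable_const.mul measurable_id).div (measurable_const.add measurable_id)
    rw [hg₁d]
    exact (chi_cont _).measurable.mul (m1.comp (hN x).cont.measurable)
  have g0 : ∀ u, 0 ≤ g₁ u := fun u => by rw [hg₁d]; exact mul_nonneg (chi_nonneg _ _) (hb0 u)
  have gb' : ∀ u, g₁ u ≤ bet C (F x u) := fun u => by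
    rw [hg₁d]
    calc chi R u * bet C (F x u) ≤ 1 * bet C (F x u) :=
          mul_le_mul_of_nonneg_right (chi_le_one _ _) (hb0 u)
      _ = bet C (F x u) := one_mul _
  have gg : ∀ u, g₁ u ≤ F x u := fun u => (gb' u).trans (bet_le hC (hF0 u))
  have gC : ∀ u, g₁ u ≤ C := fun u => (gb' u).trans (bet_le_C hC (hF0 u))
  have gR : ∀ u, 2 * R < jb u → g₁ u = 0 := fun u hu => by
    rw [hg₁d]
    show chi R u * bet C (F x u) = 0
    rw [chi_eq_zero hR hu.le, zero_mul]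
  have main := hop1 (F x) g₁ (hN x) hF0 hmb g0 gg gC gR v hTS (by linarith)
  have f1 := hfl L hL (F x) g₁ hF0 g0 gg (hFL x) e v
  have f2 := loc_D (a := a) (g := F x) (g₁ := g₁) (R := R) (C := C) (M := 1) (lam := lam) ha ha1 hR hC
    zero_le_one hlam.le l1 (hN x).rd (hN x).cont hF0 hmb gg (fun w => by rw [hg₁d]) v
  -- the damping
  have hs0 : ∀ x, -(μ * Γ) ≤ ∫ w, W0 R v w * (bet' C (F x w) * (μ * boltzQ (1 + a) b (F x) w)) := by
    intro x
    have h1 := (hsrc (F x) (hN x) (fun u => hF.nonneg x u) (hFL x) v).1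
    have h2 : ∫ w, W0 R v w * (bet' C (F x w) * (μ * boltzQ (1 + a) b (F x) w)) =
        μ * ∫ w, W0 R v w * (bet' C (F x w) * boltzQ (1 + a) b (F x) w) := by
      rw [← integral_const_mul]
      congr 1
      funext w
      ring
    rw [h2]
    have := mul_le_mul_of_nonneg_left h1 hμ.le
    linarith
  have hs1 : ∀ x, |∫ w, W1 e R v w * (bet' C (F x w) * (μ * boltzQ (1 + a) b (F x) w))| ≤
      2 * R * (∫ w, W0 R v w * (bet' C (F x w) * (μ * boltzQ (1 + a) b (F x) w))) + μ * Γ := by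
    intro x
    have h1 := (hsrc (F x) (hN x) (fun u => hF.nonneg x u) (hFL x) v).2
    have h2 : ∀ Φ : Vec d → Vec d → ℝ, ∫ w, Φ v w * (bet' C (F x w) * (μ * boltzQ (1 + a) b (F x) w)) =
        μ * ∫ w, Φ v w * (bet' C (F x w) * boltzQ (1 + a) b (F x) w) := by
      intro Φ
      rw [← integral_const_mul]
      congr 1
      funext w
      ring
    rw [h2 (W0 R), h2 (W1 e R), abs_mul, abs_of_pos hμ]
    have := mul_le_mul_of_nonneg_left h1 hμ.le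
    linarith
  have f3 := EDl_der (a := a) hR hC hlam.le (mul_nonneg hμ.le hΓ) hF hb hM v hs0 hs1 x
  have hj0 : 0 ≤ jb v ^ a := Real.rpow_nonneg (jb_pos v).le _
  have hjv := jb_pos v
  -- `K₀ K L ⟨v⟩^(a-1) ≤ lam cV ⟨v⟩^a / 2`
  have f4 : K₀ * (K * L * jb v ^ (a - 1)) ≤ jb v ^ a * (lam * (cV / 2)) := by
    have k1 : jb v ^ (a - 1) = jb v ^ a / jb v := Real.rpow_sub_one hjv.ne' a
    have k2 : 2 * (K₀ * (K * L)) ≤ lam * cV * jb v := by
      have k3 : 2 * (K₀ * (K * L)) / (lam * cV) ≤ jb v := by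
        have : ρ = 2 * (K₀ * (K * L)) / (lam * cV) + 1 := hρd
        linarith
      rw [div_le_iff₀ hlc] at k3
      linarith
    rw [k1]
    have k4 : K₀ * (K * L * (jb v ^ a / jb v)) = jb v ^ a * (K₀ * (K * L) / jb v) := by
      field_simp
    rw [k4]
    refine mul_le_mul_of_nonneg_left ?_ hj0
    rw [div_le_iff₀ hjv]
    linarith
  have f5 : lam * (cV / 2) ≤ lam * (VarU R C e F - 12 * R * 1 * (μ * Γ)) := by
    refine mul_le_mul_of_nonneg_left ?_ hlam.le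
    linarith
  have f6 := mul_le_mul_of_nonneg_left f5 hj0
  have f7 := mul_le_mul_of_nonneg_left f1 hK₀
  have hgb : ∫ w, len (v - w) * gb R C F x w = ∫ w, len (v - w) * (chi R w * bet C (F x w)) := rfl
  rw [hgb] at f3
  have f8 : K₀ * (∫ w, (v e - w e) * PhS e a v w * (F x w - g₁ w)) -
      κ * ∫ w, len (v - w) ^ (1 + a) * g₁ w ≤
      dEDl a lam 1 R C e F (fun x v => μ * boltzQ (1 + a) b (F x) v) x v := by
    refine le_trans ?_ f3
    have k1 : jb v ^ a * (lam * (VarU R C e F - 4 * R * 1 *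
        (∫ w, len (v - w) * (chi R w * bet C (F x w))) - 12 * R * 1 * (μ * Γ))) =
        jb v ^ a * (lam * (VarU R C e F - 12 * R * 1 * (μ * Γ))) -
        jb v ^ a * (lam * (4 * R * 1 * ∫ w, len (v - w) * (chi R w * bet C (F x w)))) := by ring
    rw [k1]
    linarith
  have f9 := main.trans (mul_le_mul_of_nonneg_left f8 (hF0 v))
  have f10 := mul_le_mul_of_nonneg_left f9 hμ.le
  refine f10.trans (le_of_eq ?_)
  ring

variable {T μ : ℝ} {h : ℝ → Vec d → Vec d → ℝ}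

/-- the time slices of a classical solution with the collision term `μ Q(h,h)` -/
theorem fs_mu {γ : ℝ} (hf : IsClassicalSol T (fun t x v => μ * boltzQ γ b (h t x) v) h)
    (hpl : Planar e T h) {t : ℝ} (ht : t ∈ Ioo 0 T) :
    FS e (h t) (fun x v => μ * boltzQ γ b (h t x) v) := by
  have ht' : t ∈ Ico 0 T := ⟨ht.1.le, ht.2⟩
  have hper : ∀ x i, h t (x + Pi.single i 1) = h t x := fun x i => by
    funext v
    exact hf.periodic t ht' x v i
  have hplf : ∀ x y, x e = y e → h t x = h t y := fun x y hxy => by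
    funext v
    exact hpl t ht' x y v hxy
  refine ⟨fun x v => hf.nonneg t ht' x v, fun x v i => hf.periodic t ht' x v i,
    fun x v i => by simp only [hper], fun x y v hxy => hpl t ht' x y v hxy,
    fun x y v hxy => by simp only [hplf x y hxy], IsClassicalSol.cont_slice hf ht',
    IsClassicalSol.cont_Q hf ht, ?_, ?_⟩
  · intro N
    obtain ⟨C, hC⟩ := hf.decay t ht.2 N
    refine ⟨C, fun x v => ?_⟩
    rw [abs_of_nonneg (hf.nonneg t ht' x v)]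
    exact hC t ⟨ht.1.le, le_rfl⟩ x v
  · intro N
    obtain ⟨C, -, hC⟩ := IsClassicalSol.Q_le hf ht.1 ht.2 N
    refine ⟨C, fun x v => ?_⟩
    have h1 := hC t ⟨le_rfl, le_rfl⟩ x v
    have h2 : 0 < (1 + ‖v‖) ^ N := pow_pos (w_pos v) N
    rw [← div_eq_mul_inv, le_div_iff₀ h2, mul_comm] at h1
    exact h1

/-- the same at `t = 0`, with the source `0` -/
theorem fs_zero {Q : ℝ → Vec d → Vec d → ℝ} (hf : IsClassicalSol T Q h) (hpl : Planar e T h) {t : ℝ}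
    (ht : t ∈ Ico 0 T) : FS e (h t) (fun _ _ => 0) := by
  refine ⟨fun x v => hf.nonneg t ht x v, fun x v i => hf.periodic t ht x v i, fun _ _ _ => rfl,
    fun x y v hxy => hpl t ht x y v hxy, fun _ _ _ _ => rfl, IsClassicalSol.cont_slice hf ht,
    continuous_const, ?_, fun N => ⟨0, fun x v => by simp⟩⟩
  intro N
  obtain ⟨C, hC⟩ := hf.decay t ht.2 N
  refine ⟨C, fun x v => ?_⟩
  rw [abs_of_nonneg (hf.nonneg t ht x v)]
  exact hC t ⟨ht.1, le_rfl⟩ x v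

/-- **section 5**: all polynomial moments from one, with the same dilution parameter -/
theorem all_mom {p p₁ : ℕ} (hp : (d : ℝ) + (1 + a) + 4 ≤ 2 * p) (hpp : p ≤ p₁) (ha : a ≤ 0) (ha1 : -1 < a)
    (hβ : 0 < β) (hβ1 : β ≤ 1) (hop : OpD d a β b p₁ e) {R C cV Γ L : ℝ} (hR : 1 ≤ R) (hC : 0 < C)
    (hcV : 0 < cV) (hΓ : 0 ≤ Γ) (hL : 0 ≤ L) :
    ∃ U : ℝ, 0 < U ∧ ∀ μ : ℝ, 0 < μ → μ ≤ 1 → 24 * R * Γ * μ ≤ cV → SrcD d a R C Γ L b p e →
      ∀ (T : ℝ) (h : ℝ → Vec d → Vec d → ℝ),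
      IsClassicalSol T (fun t x v => μ * boltzQ (1 + a) b (h t x) v) h → Planar e T h →
      (∀ t ∈ Ico 0 T, ∫ q, h t q.2 q.1 ∂(nu d) ≤ 1) → (∀ t ∈ Ioo 0 T, cV ≤ VarU R C e (h t)) →
      (∀ t ∈ Ico 0 T, ∀ x v, h t x v * (1 + nsq v) ^ p ≤ L) →
      ∀ B : ℝ, (∀ x v, h 0 x v * (1 + nsq v) ^ p₁ ≤ B) →
      ∀ t ∈ Ico 0 T, ∀ x v, h t x v * (1 + nsq v) ^ p₁ ≤ U + 4 * B := by
  obtain ⟨lam, A₁, hlam, hA₁, hl, hcore⟩ := an_core (L := L) hp hpp ha ha1 hβ hβ1 hop hR hC hcV hΓ hL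
  refine ⟨2 * A₁, by positivity, ?_⟩
  intro μ hμ hμ1 hμΓ hsrc T h hf hpl hM hvar hhL B hB t ht x v
  have h0T : (0 : ℝ) ∈ Ico 0 T := ⟨le_rfl, ht.1.trans_lt ht.2⟩
  have hnsq : ∀ v : Vec d, 0 ≤ nsq v := fun v => by
    unfold nsq
    exact Finset.sum_nonneg fun i _ => sq_nonneg _
  have hB0 : 0 ≤ B := by
    refine le_trans (mul_nonneg (hf.nonneg 0 h0T x v) ?_) (hB x v)
    have := hnsq v
    positivity
  have hE : ∀ τ ∈ Ico 0 T, ∀ x v, |μ * EDl a lam 1 R C e (h τ) x v| ≤ 1 / 2 := by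
    intro τ hτ y u
    have h1 := EDl_abs (a := a) ha hR hC hlam (fs_zero hf hpl hτ) (hM τ hτ) y u
    rw [abs_mul, abs_of_pos hμ]
    have h2 : 14 * R ^ 2 * 1 ^ 2 * lam ≤ 1 / 2 := by linarith
    calc μ * |EDl a lam 1 R C e (h τ) y u| ≤ 1 * (1 / 2) :=
          mul_le_mul hμ1 (h1.trans h2) (abs_nonneg _) zero_le_one
      _ = 1 / 2 := one_mul _
  have hex : ∀ τ ∈ Ico 0 T, ∀ x v, Real.exp (-(μ * EDl a lam 1 R C e (h τ) x v)) ≤ 2 ∧
      1 / 2 ≤ Real.exp (-(μ * EDl a lam 1 R C e (h τ) x v)) := by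
    intro τ hτ y u
    obtain ⟨k1, k2⟩ := abs_le.1 (hE τ hτ y u)
    constructor
    · have k3 : Real.exp (-(μ * EDl a lam 1 R C e (h τ) y u)) ≤ Real.exp (1 / 2) :=
        Real.exp_le_exp.2 (by linarith)
      have k4 : Real.exp (1 / 2) ≤ 2 := by
        have k5 : Real.exp (1 / 2) ^ 2 ≤ 2 ^ 2 := by
          rw [← Real.exp_nat_mul]
          have k6 : ((2 : ℕ) : ℝ) * (1 / 2) = 1 := by norm_num
          rw [k6]
          have := Real.exp_one_lt_d9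
          linarith
        exact (pow_le_pow_iff_left₀ (Real.exp_pos _).le (by norm_num) (by norm_num)).1 k5
      exact k3.trans k4
    · have k3 := Real.add_one_le_exp (-(μ * EDl a lam 1 R C e (h τ) y u))
      linarith
  have hc : ContinuousOn (unc fun t x v => μ * EDl a lam 1 R C e (h t) x v) (Ico 0 T ×ˢ univ) :=
    continuousOn_const.mul (EDl_cont hC hf e)
  have key := max_high hf p₁ (E := fun t x v => μ * EDl a lam 1 R C e (h t) x v)
    (DE := fun t x v => μ * dEDl a lam 1 R C e (h t) (fun x v => μ * boltzQ (1 + a) b (h t x) v) x v)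
    hc (fun t ht x v i => by rw [EDl_per (hf.periodic t ht) e x v i])
    (fun T₁ hT₁ => ⟨1 / 2, fun τ hτ y u => hE τ ⟨hτ.1, hτ.2.trans_lt hT₁⟩ y u⟩)
    (fun τ hτ y u => (EDl_char hC hf hpl hτ y u).const_mul μ)
    (m := fun _ => 0) (integrableOn_zero) (fun _ _ => le_rfl) (A₁ := A₁)
    (fun τ hτ y u hhigh htch => by
      have hfs := fs_mu hf hpl hτ
      have hbf := bet_fs hC hf hpl hτ hfs
      have hτ' : τ ∈ Ico 0 T := ⟨hτ.1.le, hτ.2⟩
      have h1 := hcore μ hμ hμ1 hμΓ hsrc (h τ) hfs hbf (hM τ hτ') (hvar τ hτ) (hhL τ hτ')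
        (fun x => hf.nice hτ x) y u hhigh htch
      rw [add_zero]
      exact h1)
    (A₀ := A₁ + 2 * B) (by linarith)
    (fun y u => by
      have h1 := (hex 0 h0T y u).1
      have h2 : 0 ≤ h 0 y u * (1 + nsq u) ^ p₁ := mul_nonneg (hf.nonneg 0 h0T y u) (by
        have := hnsq u
        positivity)
      have h3 := mul_le_mul (hB y u) h1 (Real.exp_pos _).le hB0
      linarith) t ht x v
  have e0 : ∫ _ in Ioc 0 t, (0 : ℝ) = 0 := by simp
  rw [e0, Real.exp_zero, mul_one] at key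
  have h1 := (hex t ht x v).2
  have h2 : 0 ≤ h t x v * (1 + nsq v) ^ p₁ := mul_nonneg (hf.nonneg t ht x v) (by
    have := hnsq v
    positivity)
  have h3 := mul_le_mul_of_nonneg_left h1 h2
  linarith

end Pool.Agent.H71.DG
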