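import Pool.Agent.H48.PV.DerB
import Pool.Agent.H48.PV.DerC
import Pool.Agent.H71.PX.Th0A

/-!
# Dilute planar gas, `0 < γ < 1` (MP_c15324_an): the damping part of the weight (E3, E4 of /team-store/h15_dilute_paper.md)

`γ = 1 + a`, `-1 < a ≤ 0`. `EDl = ⟨v⟩^a (lam ED + 4 R (2R+1) M lam avn[chi_R] bet_C)`, `ED`, `avn`, `W0`, `W1` of PV/EUDef; `M` is a bound of the mass of `F`.
The collision term enters through `∫ W_i bet'(F) G dw` only: `|∫ W1 bet'(F) G| ≤ 2R ∫ W0 bet'(F) G + Γ`, `-Γ ≤ ∫ W0 bet'(F) G` (the renormalization defect is nonnegative).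
* `EDl_der`: `⟨v⟩^a lam (VarU - 4 R M ∫ |V| g' - 12 R M Γ) ≤ dEDl`: `ED_der` with `μ₃ = (2R+1) ∫ W0 bet' G + 3Γ`.
-/

set_option autoImplicit false

open MeasureTheory Set Filter Topology Pool.Agent.H25.Kin Pool.Agent.H82.BK Pool.Agent.H82.CM
open Pool.Agent.H48.PL Pool.Agent.H48.PI Pool.Agent.H48.PW Pool.Agent.H48.PV

namespace Pool.Agent.H71.DG

variable {d : ℕ}

/-- the damping weight of the dilute gas -/
noncomputable def EDl (a lam M R C : ℝ) (e : Fin d) (F : Vec d → Vec d → ℝ) (x v : Vec d) : ℝ :=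
  jb v ^ a * (lam * ED R C e F x v +
    4 * R * (2 * R + 1) * M * lam * avn (W0 R) (fun y w => bet C (F y w)) v)

/-- its derivative along characteristics -/
noncomputable def dEDl (a lam M R C : ℝ) (e : Fin d) (F G : Vec d → Vec d → ℝ) (x v : Vec d) : ℝ :=
  jb v ^ a * (lam * dED R C e F G x v +
    4 * R * (2 * R + 1) * M * lam * avn (W0 R) (fun y w => bet' C (F y w) * G y w) v)

section char

variable {T : ℝ} {Q f : ℝ → Vec d → Vec d → ℝ} {a lam M R C : ℝ}

private lemma dl_avn {Φ : Vec d → Vec d → ℝ} (hf : IsClassicalSol T Q f) (hΦ : PGW Φ) :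
    ContinuousOn (unc fun t (_ : Vec d) v => avn Φ (f t) v) (Ico 0 T ×ˢ univ) := by
  have h1 : Continuous fun z : ℝ × Vec d × Vec d => (z.1, z.2.2) := by fun_prop
  exact (avn_cont hf hΦ).comp h1.continuousOn fun z hz => ⟨hz.1, mem_univ _⟩

theorem EDl_cont (hC : 0 < C) (hf : IsClassicalSol T Q f) (e : Fin d) :
    ContinuousOn (unc fun t x v => EDl a lam M R C e (f t) x v) (Ico 0 T ×ˢ univ) := by
  have hb := bet_sol hC hf
  have h1 := dl_avn hb (W0_PGW (d := d) R)
  have h2 := pot_cont hb (W1_PGW e R) e one_pos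
  have h3 := dl_avn hb (W1_PGW e R)
  have h4 := pot_cont hb (W0_PGW (d := d) R) e one_pos
  have h5 : ContinuousOn (fun z : ℝ × Vec d × Vec d => jb z.2.2 ^ a) (Ico 0 T ×ˢ univ) := by
    have h6 : Continuous fun z : ℝ × Vec d × Vec d => jb z.2.2 :=
      jb_cont.comp (continuous_snd.comp continuous_snd)
    exact (h6.rpow_const fun z => Or.inl (jb_pos _).ne').continuousOn
  exact h5.mul ((continuousOn_const.mul ((h1.mul h2).sub (h3.mul h4))).add (continuousOn_const.mul h1))

lemma EDl_per {F : Vec d → Vec d → ℝ} (hF : ∀ x v i, F (x + Pi.single i 1) v = F x v) (e : Fin d)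
    (x v : Vec d) (i : Fin d) :
    EDl a lam M R C e F (x + Pi.single i 1) v = EDl a lam M R C e F x v := by
  have hb : ∀ (y w : Vec d) (j : Fin d), (fun y w => bet C (F y w)) (y + Pi.single j 1) w =
      (fun y w => bet C (F y w)) y w := by
    intro y w j
    show bet C (F (y + Pi.single j 1) w) = bet C (F y w)
    rw [hF]
  unfold EDl ED
  rw [pot_per hb, pot_per hb]

theorem EDl_char (hC : 0 < C) (hf : IsClassicalSol T Q f) {e : Fin d} (hpl : Planar e T f) {t : ℝ}
    (ht : t ∈ Ioo 0 T) (x v : Vec d) :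
    HasDerivAt (fun r => EDl a lam M R C e (f r) (x + r • v) v)
      (dEDl a lam M R C e (f t) (Q t) (x + t • v) v) t := by
  have hb := bet_sol hC hf
  have hbp : Planar e T fun t x v => bet C (f t x v) := bet_planar hpl
  have h1 := avn_deriv hb (W0_PGW (d := d) R) ht v
  have h2 := pot_char hb hbp (W1_PGW e R) one_pos ht x v
  have h3 := avn_deriv hb (W1_PGW e R) ht v
  have h4 := pot_char hb hbp (W0_PGW (d := d) R) one_pos ht x v
  exact ((((h1.mul h2).sub (h3.mul h4)).const_mul lam).add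
    (h1.const_mul (4 * R * (2 * R + 1) * M * lam))).const_mul (jb v ^ a)

end char

section slice

variable {e : Fin d} {F G : Vec d → Vec d → ℝ} {a lam M R C Γ : ℝ}

private lemma dl_bd {A : Vec d → Vec d → ℝ} (hA : RX A) {Φ : Vec d → Vec d → ℝ} (hΦ : PGW Φ)
    (v : Vec d) : ∃ C, ∀ x w, |Φ v w * A x w| ≤ C * wt d w := by
  obtain ⟨N, K, hK0, hK⟩ := hΦ.le
  obtain ⟨C, hC⟩ := hA (N + (d + 1))
  refine ⟨K * (1 + ‖v‖) ^ N * C, fun x w => ?_⟩
  have hw : 0 < 1 + ‖w‖ := w_pos w
  have hv : 0 < 1 + ‖v‖ := w_pos v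
  have h2 := hC x w
  rw [abs_mul]
  unfold wt
  rw [← div_eq_mul_inv, le_div_iff₀ (by positivity)]
  calc |Φ v w| * |A x w| * (1 + ‖w‖) ^ (d + 1)
      ≤ (K * ((1 + ‖v‖) ^ N * (1 + ‖w‖) ^ N)) * |A x w| * (1 + ‖w‖) ^ (d + 1) := by
        have := hK v w
        gcongr
    _ = K * (1 + ‖v‖) ^ N * ((1 + ‖w‖) ^ (N + (d + 1)) * |A x w|) := by rw [pow_add]; ring
    _ ≤ K * (1 + ‖v‖) ^ N * C := by gcongr

/-- the velocity integrals of the source are planar functions -/
theorem src_pl (h : FS e F G) {Φ : Vec d → Vec d → ℝ} (hΦ : PGW Φ) (v : Vec d) :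
    PlF e fun x => ∫ w, Φ v w * G x w := by
  obtain ⟨C, hC⟩ := dl_bd h.decG hΦ v
  have hwc : ∀ x, Continuous fun w => Φ v w * G x w := fun x =>
    (hΦ.cont.comp (by fun_prop : Continuous fun w : Vec d => (v, w))).mul
      (h.contG.comp (by fun_prop : Continuous fun w : Vec d => (x, w)))
  refine ⟨?_, ?_, ?_⟩
  · refine continuous_of_dominated (bound := fun w => C * wt d w) ?_ ?_
      (integrable_wt.const_mul _) ?_
    · intro x
      exact (hwc x).aestronglyMeasurable
    · intro x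
      exact Eventually.of_forall fun w => hC x w
    · refine Eventually.of_forall fun w => ?_
      exact continuous_const.mul
        (h.contG.comp (by fun_prop : Continuous fun x : Vec d => (x, w)))
  · intro x i
    congr 1
    funext w
    rw [h.perG]
  · intro x y hxy
    congr 1
    funext w
    rw [h.plG x y w hxy]

theorem src_avn (h : FS e F G) {Φ : Vec d → Vec d → ℝ} (hΦ : PGW Φ) (v : Vec d) :
    avn Φ G v = ∫ x, (∫ w, Φ v w * G x w) ∂(muD d) := by
  obtain ⟨C, hC⟩ := dl_bd h.decG hΦ v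
  have hc : Continuous fun p : Vec d × Vec d => Φ v p.1 * G p.2 p.1 :=
    (hΦ.cont.comp (by fun_prop : Continuous fun p : Vec d × Vec d => (v, p.1))).mul
      (h.contG.comp (by fun_prop : Continuous fun p : Vec d × Vec d => (p.2, p.1)))
  exact Pool.Agent.H15.AV.nu_integral (integrable_nu hc.aestronglyMeasurable fun p => hC p.2 p.1)

/-- the derivative of the damping weight -/
theorem EDl_der (hR : 1 ≤ R) (hC : 0 < C) (hlam : 0 ≤ lam) (hΓ : 0 ≤ Γ) (h : FS e F G)
    (hb : FS e (fun x v => bet C (F x v)) (fun x v => bet' C (F x v) * G x v))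
    (hM : ∫ p, F p.2 p.1 ∂(nu d) ≤ M) (v : Vec d)
    (h0 : ∀ x, -Γ ≤ ∫ w, W0 R v w * (bet' C (F x w) * G x w))
    (h1 : ∀ x, |∫ w, W1 e R v w * (bet' C (F x w) * G x w)| ≤
      2 * R * (∫ w, W0 R v w * (bet' C (F x w) * G x w)) + Γ) (x : Vec d) :
    jb v ^ a * (lam * (VarU R C e F - 4 * R * M * (∫ w, len (v - w) * gb R C F x w) - 12 * R * M * Γ)) ≤
      dEDl a lam M R C e F G x v := by
  have p0 := src_pl hb (W0_PGW (d := d) R) v
  have e0 := src_avn hb (W0_PGW (d := d) R) v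
  set S : Vec d → ℝ := fun x => ∫ w, W0 R v w * (bet' C (F x w) * G x w) with hS
  have hμ : PlF e fun x => (2 * R + 1) * S x + 3 * Γ :=
    ⟨(continuous_const.mul p0.cont).add continuous_const, fun x i => by rw [p0.per],
      fun x y hxy => by rw [p0.pl x y hxy]⟩
  have h3 : ∀ x, |∫ w, W1 e R v w * (bet' C (F x w) * G x w)| +
      |∫ w, W0 R v w * (bet' C (F x w) * G x w)| ≤ (2 * R + 1) * S x + 3 * Γ := by
    intro x
    have a1 : |S x| ≤ S x + 2 * Γ := by
      have := h0 x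
      rw [abs_le]
      constructor <;> linarith
    have a2 := h1 x
    have a3 : |∫ w, W0 R v w * (bet' C (F x w) * G x w)| = |S x| := rfl
    have a4 : ∫ w, W0 R v w * (bet' C (F x w) * G x w) = S x := rfl
    rw [a4] at a2
    rw [a3]
    linarith
  have key := ED_der hR hC h hb hM hμ v h3 x
  have hi : ∫ y, ((2 * R + 1) * S y + 3 * Γ) ∂(muD d) =
      (2 * R + 1) * avn (W0 R) (fun y w => bet' C (F y w) * G y w) v + 3 * Γ := by
    rw [e0, integral_add ((pl_int p0).const_mul _) (integrable_const _), integral_const_mul,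
      integral_const]
    have h5 : (muD d).real univ = 1 := by
      rw [Measure.real, muD_univ]
      rfl
    rw [h5, one_smul]
  rw [hi] at key
  unfold dEDl
  refine mul_le_mul_of_nonneg_left ?_ (Real.rpow_nonneg (jb_pos v).le _)
  have k2 := mul_le_mul_of_nonneg_left key hlam
  nlinarith [k2]

private lemma dl_avn01 (hC : 0 < C) (h : FS e F G) (hM : ∫ p, F p.2 p.1 ∂(nu d) ≤ M) (v : Vec d) :
    0 ≤ avn (W0 R) (fun y w => bet C (F y w)) v ∧ avn (W0 R) (fun y w => bet C (F y w)) v ≤ M := by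
  have hn : ∀ p : Vec d × Vec d, 0 ≤ W0 R v p.1 * bet C (F p.2 p.1) := fun p =>
    mul_nonneg (chi_nonneg R p.1) (bet_nonneg hC (h.nonneg _ _))
  have hle : ∀ p : Vec d × Vec d, W0 R v p.1 * bet C (F p.2 p.1) ≤ F p.2 p.1 := fun p =>
    (mul_le_of_le_one_left (bet_nonneg hC (h.nonneg _ _)) (chi_le_one R p.1)).trans
      (bet_le hC (h.nonneg _ _))
  refine ⟨integral_nonneg hn, le_trans ?_ hM⟩
  obtain ⟨D, hD⟩ := h.decF (d + 1)
  have hFi : Integrable (fun p : Vec d × Vec d => F p.2 p.1) (nu d) := by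
    refine integrable_nu (C := D)
      (h.contF.comp (by fun_prop : Continuous fun p : Vec d × Vec d => (p.2, p.1))).aestronglyMeasurable
      fun p => ?_
    have h2 := hD p.2 p.1
    unfold wt
    rw [← div_eq_mul_inv, le_div_iff₀ (pow_pos (w_pos p.1) _), mul_comm]
    exact h2
  exact integral_mono_of_nonneg (Eventually.of_forall hn) hFi (Eventually.of_forall hle)

private lemma dl_core (hR : 1 ≤ R) (hC : 0 < C) (hlam : 0 ≤ lam) (h : FS e F G)
    (hM : ∫ p, F p.2 p.1 ∂(nu d) ≤ M) (x v : Vec d) :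
    |lam * ED R C e F x v + 4 * R * (2 * R + 1) * M * lam * avn (W0 R) (fun y w => bet C (F y w)) v| ≤
      14 * R ^ 2 * M ^ 2 * lam := by
  have h1 := ED_abs hR hC h hM x v
  obtain ⟨h2, h3⟩ := dl_avn01 (R := R) hC h hM v
  have M0 : 0 ≤ M := h2.trans h3
  have R0 : 0 ≤ R := by linarith
  have k1 : |lam * ED R C e F x v| ≤ lam * (2 * R * M ^ 2) := by
    rw [abs_mul, abs_of_nonneg hlam]
    exact mul_le_mul_of_nonneg_left h1 hlam
  have k2 : |4 * R * (2 * R + 1) * M * lam * avn (W0 R) (fun y w => bet C (F y w)) v| ≤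
      4 * R * (2 * R + 1) * M * lam * M := by
    have k3 : 0 ≤ 4 * R * (2 * R + 1) * M * lam := by positivity
    rw [abs_mul, abs_of_nonneg k3, abs_of_nonneg h2]
    exact mul_le_mul_of_nonneg_left h3 k3
  refine (abs_add_le _ _).trans ((add_le_add k1 k2).trans ?_)
  have k4 : 0 ≤ lam * M ^ 2 := by positivity
  have k5 : R ≤ R ^ 2 := by nlinarith
  have k6 := mul_le_mul_of_nonneg_left k5 k4
  nlinarith

private lemma dl_jb (ha : a ≤ 0) (v : Vec d) : 0 ≤ jb v ^ a ∧ jb v ^ a ≤ 1 :=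
  ⟨Real.rpow_nonneg (jb_pos v).le _, Real.rpow_le_one_of_one_le_of_nonpos (one_le_jb v) ha⟩

/-- the damping weight is bounded -/
theorem EDl_abs (ha : a ≤ 0) (hR : 1 ≤ R) (hC : 0 < C) (hlam : 0 ≤ lam) (h : FS e F G)
    (hM : ∫ p, F p.2 p.1 ∂(nu d) ≤ M) (x v : Vec d) :
    |EDl a lam M R C e F x v| ≤ 14 * R ^ 2 * M ^ 2 * lam := by
  obtain ⟨j0, j1⟩ := dl_jb ha v
  unfold EDl
  rw [abs_mul, abs_of_nonneg j0]
  exact (mul_le_of_le_one_left (abs_nonneg _) j1).trans (dl_core hR hC hlam h hM x v)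

theorem mm_eq_min (β : ℝ) (v u : Vec d) : mm β v u = min 1 (len (u - v) / jb v) ^ β := by
  have hj := jb_pos v
  have hl : 0 ≤ len (u - v) := len_nonneg _
  have h1 : nsq (u - v) / (1 + nsq v) = (len (u - v) / jb v) ^ 2 := by
    rw [div_pow, jb_sq, len_sq]
  have hr : 0 ≤ len (u - v) / jb v := by positivity
  have h2 : min 1 ((len (u - v) / jb v) ^ 2) = (min 1 (len (u - v) / jb v)) ^ 2 := by
    rcases le_total (len (u - v) / jb v) 1 with h | h
    · rw [min_eq_right h, min_eq_right (by nlinarith)]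
    · rw [min_eq_left h, min_eq_left (by nlinarith)]
      norm_num
  have h3 : 0 ≤ min 1 (len (u - v) / jb v) := le_min zero_le_one hr
  unfold mm
  rw [h1, h2, ← Real.rpow_natCast, ← Real.rpow_mul h3]
  congr 1
  push_cast
  ring

/-- the oscillation of `⟨v⟩^a` -/
theorem jb_osc (ha : a ≤ 0) (ha1 : -1 ≤ a) {β : ℝ} (hβ : 0 < β) (hβ1 : β ≤ 1) (u v : Vec d) :
    |jb u ^ a - jb v ^ a| ≤ 4 * mm β v u := by
  have hj := jb_pos v
  have hju := jb_pos u
  obtain ⟨u0, u1⟩ := dl_jb ha u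
  obtain ⟨v0, v1⟩ := dl_jb ha v
  have hl : 0 ≤ len (u - v) := len_nonneg _
  rw [mm_eq_min]
  rcases le_or_gt (jb v / 2) (len (u - v)) with hc | hc
  · have h1 : (1 / 2 : ℝ) ≤ min 1 (len (u - v) / jb v) := by
      refine le_min (by norm_num) ?_
      rw [le_div_iff₀ hj]
      linarith
    have h2 : (1 / 2 : ℝ) ^ β ≤ min 1 (len (u - v) / jb v) ^ β :=
      Real.rpow_le_rpow (by norm_num) h1 hβ.le
    have h3 : (1 / 2 : ℝ) ^ (1 : ℝ) ≤ (1 / 2 : ℝ) ^ β :=
      Real.rpow_le_rpow_of_exponent_ge (by norm_num) (by norm_num) hβ1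
    rw [Real.rpow_one] at h3
    have h4 : |jb u ^ a - jb v ^ a| ≤ 1 := by
      rw [abs_le]
      constructor <;> linarith
    linarith
  · have h1 : len (u - v) / jb v < 1 / 2 := by
      rw [div_lt_iff₀ hj]
      linarith
    have h0 : 0 ≤ len (u - v) / jb v := by positivity
    rw [min_eq_right (by linarith)]
    have h2 : len (u - v) / jb v ≤ (len (u - v) / jb v) ^ β := by
      rcases h0.eq_or_lt with h3 | h3
      · rw [← h3]
        exact Real.rpow_nonneg le_rfl _
      · calc len (u - v) / jb v = (len (u - v) / jb v) ^ (1 : ℝ) := (Real.rpow_one _).symm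
          _ ≤ _ := Real.rpow_le_rpow_of_exponent_ge h3 (by linarith) hβ1
    have h3 := jb_lip u v
    have h4 := abs_le.1 h3
    have h5 : |jb u ^ a - jb v ^ a| ≤ |a| * 2 ^ |a - 1| * (|jb u - jb v| * jb v ^ (a - 1)) :=
      Pool.Agent.H71.PX.rpow_diff hj (by linarith) (by linarith)
    have h6 : jb v ^ (a - 1) = jb v ^ a / jb v := Real.rpow_sub_one hj.ne' a
    have h7 : |a| ≤ 1 := by rw [abs_le]; constructor <;> linarith
    have h8 : (2 : ℝ) ^ |a - 1| ≤ 4 := by
      have h9 : |a - 1| ≤ 2 := by rw [abs_le]; constructor <;> linarith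
      calc (2 : ℝ) ^ |a - 1| ≤ 2 ^ (2 : ℝ) := Real.rpow_le_rpow_of_exponent_le (by norm_num) h9
        _ = 4 := by norm_num
    have h9 : |a| * 2 ^ |a - 1| ≤ 4 := by
      have := mul_le_mul h7 h8 (by positivity) zero_le_one
      linarith
    have h10 : |jb u - jb v| * jb v ^ (a - 1) ≤ len (u - v) / jb v := by
      rw [h6]
      calc |jb u - jb v| * (jb v ^ a / jb v) ≤ len (u - v) * (1 / jb v) :=
            mul_le_mul h3 (div_le_div_of_nonneg_right v1 hj.le) (div_nonneg v0 hj.le) hl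
        _ = len (u - v) / jb v := by ring
    have h11 : 0 ≤ |jb u - jb v| * jb v ^ (a - 1) :=
      mul_nonneg (abs_nonneg _) (Real.rpow_nonneg hj.le _)
    calc |jb u ^ a - jb v ^ a| ≤ |a| * 2 ^ |a - 1| * (|jb u - jb v| * jb v ^ (a - 1)) := h5
      _ ≤ 4 * (len (u - v) / jb v) := mul_le_mul h9 h10 h11 (by norm_num)
      _ ≤ _ := mul_le_mul_of_nonneg_left h2 (by norm_num)

/-- the damping weight is Hölder continuous in `v` (it depends on `v` through `⟨v⟩^a` only) -/
theorem EDl_osc (ha : a ≤ 0) (ha1 : -1 ≤ a) {β : ℝ} (hβ : 0 < β) (hβ1 : β ≤ 1) (hR : 1 ≤ R) (hC : 0 < C)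
    (hlam : 0 ≤ lam) (h : FS e F G) (hM : ∫ p, F p.2 p.1 ∂(nu d) ≤ M) (x u v : Vec d) :
    |EDl a lam M R C e F x u - EDl a lam M R C e F x v| ≤ 56 * R ^ 2 * M ^ 2 * lam * mm β v u := by
  have h1 := dl_core hR hC hlam h hM x v
  have h2 := jb_osc (a := a) ha ha1 hβ hβ1 u v
  have e1 : EDl a lam M R C e F x u - EDl a lam M R C e F x v = (jb u ^ a - jb v ^ a) *
      (lam * ED R C e F x v +
        4 * R * (2 * R + 1) * M * lam * avn (W0 R) (fun y w => bet C (F y w)) v) := by
    unfold EDl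
    rw [ED_v e F x u v, show avn (W0 R) (fun y w => bet C (F y w)) u =
      avn (W0 R) (fun y w => bet C (F y w)) v from rfl]
    ring
  have M0 : 0 ≤ 14 * R ^ 2 * M ^ 2 * lam := by positivity
  rw [e1, abs_mul]
  refine (mul_le_mul h2 h1 (abs_nonneg _) ((abs_nonneg _).trans h2)).trans (le_of_eq ?_)
  ring

private lemma dl_len (ha : a ≤ 0) (ha1 : -1 < a) (hR : 1 ≤ R) {v w : Vec d} (hw : jb w ≤ 2 * R) :
    jb v ^ a * len (v - w) ≤ 3 * R * len (v - w) ^ (1 + a) := by
  have hj := jb_pos v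
  have hj1 := one_le_jb v
  rcases (len_nonneg (v - w)).eq_or_lt with h0 | h0
  · rw [← h0, mul_zero]
    have := Real.rpow_nonneg (le_refl (0 : ℝ)) (1 + a)
    positivity
  · have h1 : len (v - w) ≤ 3 * R * jb v := by
      have k1 := len_sub_le v w
      have k2 := len_le_jb v
      have k3 := len_le_jb w
      nlinarith
    have h2 : len (v - w) = len (v - w) ^ (1 + a) * len (v - w) ^ (-a) := by
      rw [← Real.rpow_add h0]
      norm_num
    have h3 : jb v ^ a * len (v - w) ^ (-a) = (len (v - w) / jb v) ^ (-a) := by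
      rw [Real.div_rpow h0.le hj.le, Real.rpow_neg hj.le, div_inv_eq_mul, mul_comm]
    have h4 : (len (v - w) / jb v) ^ (-a) ≤ 3 * R := by
      have k1 : len (v - w) / jb v ≤ 3 * R := by
        rw [div_le_iff₀ hj]
        exact h1
      have k2 : (len (v - w) / jb v) ^ (-a) ≤ (3 * R) ^ (-a) :=
        Real.rpow_le_rpow (by positivity) k1 (by linarith)
      have k3 : (3 * R) ^ (-a) ≤ (3 * R) ^ (1 : ℝ) :=
        Real.rpow_le_rpow_of_exponent_le (by linarith) (by linarith)
      rw [Real.rpow_one] at k3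
      exact k2.trans k3
    have h5 := Real.rpow_nonneg h0.le (1 + a)
    calc jb v ^ a * len (v - w)
        = len (v - w) ^ (1 + a) * (jb v ^ a * len (v - w) ^ (-a)) := by
          conv_lhs => rw [h2]
          ring
      _ ≤ len (v - w) ^ (1 + a) * (3 * R) := by
          rw [h3]
          exact mul_le_mul_of_nonneg_left h4 h5
      _ = _ := by ring

/-- the local term -/
theorem loc_D (ha : a ≤ 0) (ha1 : -1 < a) {κ : ℝ} (hR : 1 ≤ R) (hC : 0 < C) (hM : 0 ≤ M) (hlam : 0 ≤ lam)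
    (hl : 12 * R ^ 2 * M * lam ≤ κ) {g g₁ : Vec d → ℝ} (hg : RD g) (hgc : Continuous g)
    (hg0 : ∀ w, 0 ≤ g w) (hg1m : Measurable g₁) (hg1 : ∀ w, g₁ w ≤ g w)
    (hle : ∀ w, chi R w * bet C (g w) ≤ g₁ w) (v : Vec d) :
    jb v ^ a * (lam * (4 * R * M * ∫ w, len (v - w) * (chi R w * bet C (g w)))) ≤
      κ * ∫ w, len (v - w) ^ (1 + a) * g₁ w := by
  have hb0 : ∀ w, 0 ≤ chi R w * bet C (g w) := fun w =>
    mul_nonneg (chi_nonneg R w) (bet_nonneg hC (hg0 w))
  have hg10 : ∀ w, 0 ≤ g₁ w := fun w => (hb0 w).trans (hle w)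
  have hκ : 0 ≤ κ := le_trans (by positivity) hl
  have hPG : PG fun w : Vec d => 2 * (jb v * jb w) := by
    have h2 : PG fun w : Vec d => jb w := by
      refine ⟨1, (d : ℝ) + 1, fun w => ?_⟩
      rw [Real.norm_eq_abs, abs_of_pos (jb_pos w), pow_one]
      exact jb_le_w w
    exact (PG.const (2 : ℝ)).mul ((PG.const (jb v)).mul h2)
  have hlen : ∀ w, len (v - w) ^ (1 + a) ≤ 2 * (jb v * jb w) := by
    intro w
    have k1 : len (v - w) ≤ 2 * (jb v * jb w) := by
      have k2 := len_sub_le v w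
      have k3 := len_le_jb v
      have k4 := len_le_jb w
      have k5 := one_le_jb v
      have k6 := one_le_jb w
      nlinarith
    have k7 : 1 ≤ 2 * (jb v * jb w) := by
      have k5 := one_le_jb v
      have k6 := one_le_jb w
      nlinarith
    calc len (v - w) ^ (1 + a) ≤ (2 * (jb v * jb w)) ^ (1 + a) :=
          Real.rpow_le_rpow (len_nonneg _) k1 (by linarith)
      _ ≤ (2 * (jb v * jb w)) ^ (1 : ℝ) := Real.rpow_le_rpow_of_exponent_le k7 (by linarith)
      _ = _ := Real.rpow_one _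
  have hlm : Measurable fun w : Vec d => len (v - w) :=
    (continuous_len.comp (continuous_const.sub continuous_id)).measurable
  have i0 : Integrable fun w => g w * (2 * (jb v * jb w)) :=
    (hg.mul_PG hPG).integrable (hgc.mul (by
      have := jb_cont (d := d)
      fun_prop)).aestronglyMeasurable
  have i1 : Integrable fun w => len (v - w) ^ (1 + a) * g₁ w := by
    refine i0.mono' ((hlm.pow_const _).mul hg1m).aestronglyMeasurable (Eventually.of_forall fun w => ?_)
    rw [Real.norm_eq_abs, abs_of_nonneg (mul_nonneg (Real.rpow_nonneg (len_nonneg _) _) (hg10 w)), mul_comm]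
    have k5 := one_le_jb v
    have k6 := one_le_jb w
    exact mul_le_mul (hg1 w) (hlen w) (Real.rpow_nonneg (len_nonneg _) _) (hg0 w)
  have e1 : jb v ^ a * (lam * (4 * R * M * ∫ w, len (v - w) * (chi R w * bet C (g w)))) =
      ∫ w, jb v ^ a * (lam * (4 * R * M)) * (len (v - w) * (chi R w * bet C (g w))) := by
    rw [integral_const_mul]
    ring
  rw [e1, ← integral_const_mul]
  obtain ⟨j0, j1⟩ := dl_jb (d := d) ha v
  refine integral_mono_of_nonneg (Eventually.of_forall fun w => ?_) (i1.const_mul κ)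
    (Eventually.of_forall fun w => ?_)
  · exact mul_nonneg (by positivity) (mul_nonneg (len_nonneg _) (hb0 w))
  · show jb v ^ a * (lam * (4 * R * M)) * (len (v - w) * (chi R w * bet C (g w))) ≤
      κ * (len (v - w) ^ (1 + a) * g₁ w)
    by_cases hw : chi R w = 0
    · rw [hw, zero_mul, mul_zero, mul_zero]
      exact mul_nonneg hκ (mul_nonneg (Real.rpow_nonneg (len_nonneg _) _) (hg10 w))
    · have hjw : jb w ≤ 2 * R := by
        by_contra hcon
        exact hw (chi_eq_zero hR (not_le.1 hcon).le)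
      have k1 := dl_len (a := a) ha ha1 hR (v := v) hjw
      have k2 : 0 ≤ lam * (4 * R * M) := by positivity
      have k3 : 0 ≤ len (v - w) ^ (1 + a) := Real.rpow_nonneg (len_nonneg _) _
      calc jb v ^ a * (lam * (4 * R * M)) * (len (v - w) * (chi R w * bet C (g w)))
          = lam * (4 * R * M) * (jb v ^ a * len (v - w)) * (chi R w * bet C (g w)) := by ring
        _ ≤ lam * (4 * R * M) * (3 * R * len (v - w) ^ (1 + a)) * g₁ w :=
            mul_le_mul (mul_le_mul_of_nonneg_left k1 k2) (hle w) (hb0 w) (by positivity)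
        _ = (12 * R ^ 2 * M * lam) * (len (v - w) ^ (1 + a) * g₁ w) := by ring
        _ ≤ κ * (len (v - w) ^ (1 + a) * g₁ w) :=
            mul_le_mul_of_nonneg_right hl (mul_nonneg k3 (hg10 w))

end slice

end Pool.Agent.H71.DG
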